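import Pool.Agent.Helper98.MT.MaxTorus
import Pool.Agent.Helper54.MT.CartanIn
import Pool.Agent.Helper54.MT.IntDiag

/-!
Block Q6: an involution and a Cartan subalgebra containing a rational torus element, the neutral
element of an extremal element and the involution.
-/

open Module LieAlgebra

namespace TR

open MTP Pool.Agent.Helper54.MT

attribute [local instance 100] LieRing.ofAssociativeRing

section prelim

variable {K : Type*} [Field K] [CharZero K] {V : Type*} [AddCommGroup V]
  [Module K V] [FiniteDimensional K V]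

/-- a generic rational combination of two rational functions separates as well as the pair. -/
lemma q6_sep {I : Type*} [Finite I] (a b : I → ℚ) :
    ∃ t : ℚ, ∀ i j, a i + t * b i = a j + t * b j → a i = a j ∧ b i = b j := by
  classical
  cases nonempty_fintype I
  obtain ⟨t, ht⟩ := Infinite.exists_notMem_finset
    ((Finset.univ : Finset (I × I)).image (fun p => -(a p.1 - a p.2) / (b p.1 - b p.2)))
  refine ⟨t, fun i j h => ?_⟩
  by_cases hb : b i = b j
  · refine ⟨?_, hb⟩
    rw [hb] at h; linarith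
  · exfalso
    apply ht
    rw [Finset.mem_image]
    refine ⟨(i, j), Finset.mem_univ _, ?_⟩
    have h0 : b i - b j ≠ 0 := sub_ne_zero.mpr hb
    rw [div_eq_iff h0]
    linarith

/-- what commutes with a diagonal operator commutes with every diagonal operator whose diagonal
entries are functions of those of the first. -/
lemma q6_comm {I : Type*} [Fintype I] [DecidableEq I] (b : Basis I K V) {χ η : I → ℚ}
    {y h z : Module.End K V} (hy : ∀ i, y (b i) = (χ i : K) • b i)
    (hh : ∀ i, h (b i) = (η i : K) • b i) (hsep : ∀ i j, χ i = χ j → η i = η j)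
    (hz : y * z = z * y) : h * z = z * h := by
  rw [← sub_eq_zero]
  apply en_ext b
  intro i j
  have e0 : en b (0 : Module.End K V) i j = 0 := by simp [en]
  rw [en_comm b hh, e0]
  have h1 := en_comm b hy z i j
  rw [sub_eq_zero.mpr hz, e0] at h1
  rcases mul_eq_zero.mp h1.symm with h2 | h2
  · have h3 : χ i = χ j := by
      have : (χ i - χ j : ℚ) = 0 := by exact_mod_cast h2
      linarith
    rw [hsep i j h3, sub_self, Rat.cast_zero, zero_mul]
  · rw [h2, mul_zero]

/-- The relations of the neutral element. -/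
lemma q6_rel {N f : Module.End K V} (hNN : N * N = 0) (hff : f * f = 0) (hNf : N * f * N = N)
    (hfN : f * N * f = f) :
    (N * f - f * N) * N = N ∧ N * (N * f - f * N) = -N ∧
    (N * f - f * N) * (N * f - f * N) = N * f + f * N := by
  refine ⟨?_, ?_, ?_⟩
  · have : (N * f - f * N) * N = N * f * N - f * (N * N) := by noncomm_ring
    rw [this, hNN, hNf, mul_zero, sub_zero]
  · have : N * (N * f - f * N) = N * N * f - N * f * N := by noncomm_ring
    rw [this, hNN, hNf, zero_mul, zero_sub]
  · have : (N * f - f * N) * (N * f - f * N) =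
        N * f * N * f + f * N * f * N - N * (f * f) * N - f * (N * N) * f := by noncomm_ring
    rw [this, hNN, hff, hNf, hfN]
    simp

/-- simultaneous diagonalization of `h` and the neutral element. -/
lemma q6_rsd {N f h : Module.End K V} (hNN : N * N = 0) (hff : f * f = 0)
    (hNf : N * f * N = N) (hfN : f * N * f = f) (hdiag : ⨆ q : ℚ, h.eigenspace (q : K) = ⊤)
    (hc : h * (N * f - f * N) = (N * f - f * N) * h) :
    RSD ({h, N * f - f * N} : Set (Module.End K V)) := by
  unfold RSD
  rw [eq_top_iff, ← hdiag]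
  apply iSup_le
  intro q v hv
  rw [Module.End.mem_eigenspace_iff] at hv
  obtain ⟨-, -, h3⟩ := q6_rel hNN hff hNf hfN
  set h1 := N * f - f * N with hh1
  have hP : h * (N * f) = (N * f) * h := by
    have e1 : (2 : K) • (N * f) = h1 * h1 + h1 := by
      rw [h3, hh1, two_smul]; abel
    have e2 : h * (h1 * h1 + h1) = (h1 * h1 + h1) * h := by
      rw [mul_add, add_mul, ← mul_assoc, hc, mul_assoc, hc, ← mul_assoc]
    rw [← e1, mul_smul_comm, smul_mul_assoc] at e2
    exact smul_right_injective _ (two_ne_zero (α := K)) e2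
  have hQ : h * (f * N) = (f * N) * h := by
    have e1 : (2 : K) • (f * N) = h1 * h1 - h1 := by
      rw [h3, hh1, two_smul]; abel
    have e0 : h * (h1 * h1) = (h1 * h1) * h := by
      rw [← mul_assoc, hc, mul_assoc, hc, ← mul_assoc]
    have e2 : h * (h1 * h1 - h1) = (h1 * h1 - h1) * h := by
      rw [mul_sub h (h1 * h1) h1, sub_mul (h1 * h1) h1 h, e0, hc]
    rw [← e1, mul_smul_comm, smul_mul_assoc] at e2
    exact smul_right_injective _ (two_ne_zero (α := K)) e2
  have a1 : h1 * (N * f) = N * f := by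
    have : h1 * (N * f) = N * f * N * f - f * (N * N) * f := by rw [hh1]; noncomm_ring
    rw [this, hNN, hNf]; simp
  have a2 : h1 * (f * N) = -(f * N) := by
    have : h1 * (f * N) = N * (f * f) * N - f * N * f * N := by rw [hh1]; noncomm_ring
    rw [this, hff, hfN]; simp
  have key : ∀ (T : Module.End K V) (c : ℚ), h * T = T * h → h1 * T = (c : K) • T →
      T v ∈ Submodule.span K {v : V | ∀ z ∈ ({h, h1} : Set (Module.End K V)),
        ∃ q : ℚ, z v = (q : K) • v} := by
    intro T c hT1 hT2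
    apply Submodule.subset_span
    rintro z (rfl | hz)
    · exact ⟨q, by rw [← Module.End.mul_apply, hT1, Module.End.mul_apply, hv, map_smul]⟩
    · rw [Set.mem_singleton_iff] at hz
      subst hz
      exact ⟨c, by rw [← Module.End.mul_apply, hT2, LinearMap.smul_apply]⟩
  have k1 := key (N * f) 1 hP (by rw [a1, Rat.cast_one, one_smul])
  have k2 := key (f * N) (-1) hQ (by rw [a2, Rat.cast_neg, Rat.cast_one, neg_smul, one_smul])
  have k3 := key (1 - N * f - f * N) 0 (by
      rw [mul_sub, mul_sub, sub_mul, sub_mul, hP, hQ, mul_one, one_mul]) (by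
      rw [mul_sub, mul_sub, a1, a2, mul_one, Rat.cast_zero, zero_smul, hh1]; abel)
  have e : v = (N * f) v + (f * N) v + (1 - N * f - f * N) v := by
    simp only [LinearMap.sub_apply, Module.End.one_apply]; abel
  rw [e]
  exact Submodule.add_mem _ (Submodule.add_mem _ k1 k2) k3

end prelim

variable {K : Type*} [Field K] [CharZero K] [IsAlgClosed K] {V : Type*} [AddCommGroup V]
  [Module K V] [FiniteDimensional K V] {ω : LinearMap.BilinForm K V}

/-- Q6: an involution and a Cartan subalgebra containing `h`, the neutral element and the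
involution. -/
theorem exists_cartan_three {L : LieSubalgebra K (Module.End K V)}
    {S : Set (Module.End K V)}
    (hC : Ctx ω L.toSubmodule S) (hk : IsKilling K L) {N h f : Module.End K V} (hN : N ∈ L)
    (hNN : N * N = 0) (hN0 : N ≠ 0) (hext : ∀ y ∈ L, ∃ c : K, N * y * N = c • N)
    (hh : h ∈ L) (hdiag : ⨆ q : ℚ, h.eigenspace (q : K) = ⊤)
    (hf : f ∈ L) (hff : f * f = 0) (hNf : N * f * N = N) (hfN : f * N * f = f)
    (hc : h * (N * f - f * N) = (N * f - f * N) * h) :
    ∃ (s : L) (H : LieSubalgebra K L), H.IsCartanSubalgebra ∧ s ∈ H ∧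
      (s : Module.End K V) * s = 1 ∧ (s : Module.End K V) * N = N ∧
      (⟨h, hh⟩ : L) ∈ H ∧ (∃ h1 : L, (h1 : Module.End K V) = N * f - f * N ∧ h1 ∈ H) := by
  classical
  obtain ⟨r1, r2, r3⟩ := q6_rel hNN hff hNf hfN
  have hrsd := q6_rsd hNN hff hNf hfN hdiag hc
  have hh1L : N * f - f * N ∈ L.toSubmodule := hC.irr.br N hN f hf
  set h1 := N * f - f * N with hh1
  have hAL : ∀ z ∈ ({h, h1} : Set (Module.End K V)), z ∈ L.toSubmodule := by
    rintro z (rfl | hz)
    · exact hh
    · rw [Set.mem_singleton_iff] at hz; subst hz; exact hh1L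
  obtain ⟨J, hJ, hJc, hJs⟩ := hC.torus_span hAL hrsd
  -- an involution not commuting with `N`
  obtain ⟨s0, hs0J, hs0N⟩ : ∃ s ∈ J, s * N ≠ N * s := by
    by_contra hcon
    push Not at hcon
    have h2 : ∀ z ∈ Submodule.span K J, z * N = N * z := by
      intro z hz
      induction hz using Submodule.span_induction with
      | mem x hx => exact hcon x hx
      | zero => rw [zero_mul, mul_zero]
      | add x y _ _ hx hy => rw [add_mul, mul_add, hx, hy]
      | smul c x _ hx => rw [smul_mul_assoc, mul_smul_comm, hx]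
    have h3 := h2 h1 (hJs h1 (Or.inr rfl))
    rw [r1, r2] at h3
    have h4 : (2 : K) • N = 0 := by rw [two_smul]; nth_rewrite 1 [h3]; abel
    exact hN0 ((smul_eq_zero.mp h4).resolve_left two_ne_zero)
  obtain ⟨hs0L, hs0⟩ := hJ s0 hs0J
  have hs0h : s0 * h = h * s0 := hJc s0 hs0J h (Or.inr (Or.inl rfl))
  have hs0h1 : s0 * h1 = h1 * s0 := hJc s0 hs0J h1 (Or.inr (Or.inr rfl))
  -- `y = s0 N - N s0` is a multiple of `N`
  set y := s0 * N - N * s0 with hy
  have hyL : y ∈ L := hC.irr.br s0 hs0L N hN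
  have hy0 : y ≠ 0 := sub_ne_zero.mpr hs0N
  have y1 : h1 * y = y := by
    rw [hy, mul_sub, ← mul_assoc, ← hs0h1, mul_assoc, r1, ← mul_assoc, r1]
  have y2 : y * h1 = -y := by
    rw [hy, sub_mul, mul_assoc, r2, mul_assoc, hs0h1, ← mul_assoc, r2]
    simp only [mul_neg, neg_mul]; abel
  have y3 : N * f * y = y := by
    have e1 : (2 : K) • (N * f) = h1 * h1 + h1 := by
      rw [r3, hh1, two_smul]; abel
    have e2 : (2 : K) • (N * f * y) = (2 : K) • y := by
      rw [← smul_mul_assoc, e1, add_mul, mul_assoc, y1, y1, two_smul]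
    exact smul_right_injective _ (two_ne_zero (α := K)) e2
  have y4 : y * (f * N) = y := by
    have e1 : (2 : K) • (f * N) = h1 * h1 - h1 := by
      rw [r3, hh1, two_smul]; abel
    have e2 : (2 : K) • (y * (f * N)) = (2 : K) • y := by
      rw [← mul_smul_comm, e1, mul_sub, ← mul_assoc, y2, neg_mul, y2, neg_neg, sub_neg_eq_add,
        two_smul]
    exact smul_right_injective _ (two_ne_zero (α := K)) e2
  obtain ⟨ε, hε⟩ : ∃ ε : K, y = ε • N := by
    obtain ⟨c, hc'⟩ := hext (f * y * f) (hC.irr.sandwich hf hff hyL)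
    refine ⟨c, ?_⟩
    rw [← hc']
    have e : N * (f * y * f) * N = N * f * y * (f * N) := by noncomm_ring
    rw [e, y3, y4]
  have hε0 : ε ≠ 0 := by
    rintro rfl
    rw [zero_smul] at hε
    exact hy0 hε
  have hsNs : s0 * N * s0 = -N := by
    have e1 : s0 * y * s0 = -y := by
      have : s0 * y * s0 = (s0 * s0) * (N * s0) - s0 * N * (s0 * s0) := by rw [hy]; noncomm_ring
      rw [this, hs0, hy, one_mul, mul_one]; abel
    rw [hε, mul_smul_comm, smul_mul_assoc, ← smul_neg] at e1
    exact smul_right_injective _ hε0 e1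
  have hsN : s0 * N = -(N * s0) := by
    calc s0 * N = s0 * N * (s0 * s0) := by rw [hs0, mul_one]
      _ = s0 * N * s0 * s0 := by noncomm_ring
      _ = -(N * s0) := by rw [hsNs, neg_mul]
  have hsN2 : s0 * N = (ε / 2) • N := by
    have e1 : (2 : K) • (s0 * N) = (2 : K) • ((ε / 2) • N) := by
      rw [smul_smul, mul_div_cancel₀ ε (two_ne_zero (α := K)), ← hε, hy, two_smul]
      nth_rewrite 2 [hsN]
      abel
    exact smul_right_injective _ (two_ne_zero (α := K)) e1
  have hεsq : (ε / 2) * (ε / 2) = 1 := by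
    have e1 : s0 * (s0 * N) = N := by rw [← mul_assoc, hs0, one_mul]
    rw [hsN2, mul_smul_comm, hsN2, smul_smul] at e1
    have e2 : ((ε / 2) * (ε / 2) - 1) • N = 0 := by rw [sub_smul, e1, one_smul, sub_self]
    exact sub_eq_zero.mp ((smul_eq_zero.mp e2).resolve_right hN0)
  -- the involution
  obtain ⟨s, hsL, hss, hsN', hsh, hsh1⟩ : ∃ s ∈ L, s * s = 1 ∧ s * N = N ∧ s * h = h * s ∧
      s * h1 = h1 * s := by
    rcases mul_self_eq_one_iff.mp hεsq with h2 | h2
    · refine ⟨s0, hs0L, hs0, ?_, hs0h, hs0h1⟩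
      rw [hsN2, h2, one_smul]
    · refine ⟨-s0, L.neg_mem hs0L, by rw [neg_mul_neg, hs0], ?_, ?_, ?_⟩
      · rw [neg_mul, hsN2, h2, neg_smul, one_smul, neg_neg]
      · rw [neg_mul, mul_neg, hs0h]
      · rw [neg_mul, mul_neg, hs0h1]
  have hrsd2 : RSD (insert s ({h, h1} : Set (Module.End K V))) := by
    apply hrsd.adjoin hss
    rintro z (rfl | hz)
    · exact hsh
    · rw [Set.mem_singleton_iff] at hz; subst hz; exact hsh1
  obtain ⟨b, hb⟩ := hrsd2.basis
  obtain ⟨a0, ha0⟩ := hb h (Or.inr (Or.inl rfl))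
  obtain ⟨a1, ha1⟩ := hb h1 (Or.inr (Or.inr rfl))
  obtain ⟨a2, ha2⟩ := hb s (Or.inl rfl)
  obtain ⟨t1, ht1⟩ := q6_sep a0 a1
  obtain ⟨t2, ht2⟩ := q6_sep (fun i => a0 i + t1 * a1 i) a2
  set g : Module.End K V := h + (t1 : K) • h1 + (t2 : K) • s with hg
  have hgb : ∀ i, g (b i) = ((a0 i + t1 * a1 i + t2 * a2 i : ℚ) : K) • b i := by
    intro i
    rw [hg, LinearMap.add_apply, LinearMap.add_apply, LinearMap.smul_apply, LinearMap.smul_apply,
      ha0, ha1, ha2, smul_smul, smul_smul, ← add_smul, ← add_smul]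
    push_cast
    rfl
  have hgL : g ∈ L := by
    rw [hg]
    exact L.add_mem (L.add_mem hh (L.smul_mem _ hh1L)) (L.smul_mem _ hsL)
  have hgss : g.IsSemisimple := by
    apply semisimple_of_diag
    rw [eq_top_iff, ← b.span_eq, Submodule.span_le]
    rintro _ ⟨i, rfl⟩
    exact Submodule.mem_iSup_of_mem ((a0 i + t1 * a1 i + t2 * a2 i : ℚ) : K)
      (Module.End.mem_eigenspace_iff.mpr (hgb i))
  obtain ⟨H, hH, hgH⟩ := exists_cartan_end (L := L) ⟨g, hgL⟩ hgss
  have habel : IsLieAbelian H := inferInstance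
  -- what commutes with `g`
  have hcomm : ∀ x ∈ H, g * (x : Module.End K V) = (x : Module.End K V) * g := by
    intro x hx
    have h2 : ⁅(⟨⟨g, hgL⟩, hgH⟩ : H), (⟨x, hx⟩ : H)⁆ = 0 := trivial_lie_zero H H _ _
    have h3 : ((⁅(⟨⟨g, hgL⟩, hgH⟩ : H), (⟨x, hx⟩ : H)⁆ : H) : L) = ⁅(⟨g, hgL⟩ : L), x⁆ := rfl
    rw [h2] at h3
    have h4 : ((⁅(⟨g, hgL⟩ : L), x⁆ : L) : Module.End K V) =
        g * (x : Module.End K V) - (x : Module.End K V) * g := rfl
    rw [← h3] at h4
    exact (sub_eq_zero.mp h4.symm)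
  have hmem : ∀ z : L, (∀ x ∈ H, (z : Module.End K V) * (x : Module.End K V) =
      (x : Module.End K V) * (z : Module.End K V)) → z ∈ H := by
    intro z hz
    rw [← hH.self_normalizing, LieSubalgebra.mem_normalizer_iff]
    intro x hx
    have : ⁅z, x⁆ = 0 := by
      apply Subtype.ext
      change (z : Module.End K V) * (x : Module.End K V) -
        (x : Module.End K V) * (z : Module.End K V) = 0
      rw [hz x hx, sub_self]
    rw [this]
    exact H.zero_mem
  refine ⟨⟨s, hsL⟩, H, hH, ?_, hss, hsN', ?_, ⟨⟨h1, hh1L⟩, rfl, ?_⟩⟩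
  · apply hmem
    intro x hx
    exact q6_comm b hgb ha2 (fun i j hij => (ht2 i j hij).2) (hcomm x hx)
  · apply hmem
    intro x hx
    exact q6_comm b hgb ha0 (fun i j hij => (ht1 i j (ht2 i j hij).1).1) (hcomm x hx)
  · apply hmem
    intro x hx
    exact q6_comm b hgb ha1 (fun i j hij => (ht1 i j (ht2 i j hij).1).2) (hcomm x hx)

end TR
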